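import Mathlib

/-!
# Independent sets in graphs with bipartite neighbourhoods

If every neighbourhood is a union of two independent sets and all degrees are at most `T`, then
`|V| * (log T / 16) ≤ 2 * T * α`.
-/

set_option autoImplicit false

namespace Pool.Agent.H520TT

open Finset

/-- independent sets with respect to a relation -/
def Indep {V : Type*} (r : V → V → Prop) (S : Finset V) : Prop :=
  ∀ a ∈ S, ∀ b ∈ S, ¬ r a b

variable {V : Type*} [Fintype V] [DecidableEq V]

omit [Fintype V] [DecidableEq V] in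
lemma avg_lower (A : Finset V) (F : Finset (Finset V)) (hF : F ⊆ A.powerset)
    (hM : (2 : ℝ) ^ A.card ≤ (F.card : ℝ) ^ 2) (hF1 : 1 ≤ F.card) :
    Real.log F.card / 4 * F.card ≤ ∑ Y ∈ F, (Y.card : ℝ) := by
  by_contra hcon
  push Not at hcon
  set M : ℝ := (F.card : ℝ) with hMdef
  have hM1 : (1 : ℝ) ≤ M := by rw [hMdef]; exact_mod_cast hF1
  have hMpos : 0 < M := by linarith
  set μ := Real.log M with hμ
  have hμ0 : 0 ≤ μ := Real.log_nonneg hM1
  have hl2a := Real.log_two_gt_d9
  have hl2b := Real.log_two_lt_d9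
  set lam : ℝ := 3 * Real.log 2 with hlam
  have hlampos : 0 < lam := by rw [hlam]; linarith
  -- the pointwise tangent bound
  have hpt : ∀ Y ∈ F, Real.exp (-(lam * (μ / 4))) * (1 - lam * ((Y.card : ℝ) - μ / 4))
      ≤ (1 / 8 : ℝ) ^ Y.card * 1 ^ (A.card - Y.card) := by
    intro Y _
    have h8 : (1 / 8 : ℝ) = Real.exp (-lam) := by
      rw [hlam, show -(3 * Real.log 2) = Real.log 2 * (-3) by ring, Real.exp_mul,
        Real.exp_log (by norm_num)]
      rw [show (-3 : ℝ) = ((-3 : ℤ) : ℝ) by norm_num, Real.rpow_intCast]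
      norm_num
    rw [one_pow, mul_one, h8, ← Real.exp_nat_mul]
    have hsplit : (Y.card : ℝ) * -lam = -(lam * (μ / 4)) + -(lam * ((Y.card : ℝ) - μ / 4)) := by
      ring
    rw [hsplit, Real.exp_add]
    apply mul_le_mul_of_nonneg_left _ (Real.exp_pos _).le
    have := Real.add_one_le_exp (-(lam * ((Y.card : ℝ) - μ / 4)))
    linarith
  have hsum : ∑ Y ∈ F, Real.exp (-(lam * (μ / 4))) * (1 - lam * ((Y.card : ℝ) - μ / 4))
      ≤ (1 / 8 + 1 : ℝ) ^ A.card := by
    rw [← Finset.sum_pow_mul_eq_add_pow]
    refine (Finset.sum_le_sum hpt).trans ?_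
    apply Finset.sum_le_sum_of_subset_of_nonneg hF
    intro Y _ _
    positivity
  have hlhs : ∑ Y ∈ F, Real.exp (-(lam * (μ / 4))) * (1 - lam * ((Y.card : ℝ) - μ / 4))
      = Real.exp (-(lam * (μ / 4))) * (M * (1 + lam * (μ / 4)) - lam * ∑ Y ∈ F, (Y.card : ℝ)) := by
    rw [← Finset.mul_sum]
    congr 1
    rw [Finset.sum_sub_distrib, ← Finset.mul_sum, Finset.sum_sub_distrib]
    simp only [Finset.sum_const, nsmul_eq_mul]
    rw [← hMdef]
    ring
  rw [hlhs] at hsum
  have hgt : Real.exp (-(lam * (μ / 4))) * M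
      < Real.exp (-(lam * (μ / 4))) * (M * (1 + lam * (μ / 4)) - lam * ∑ Y ∈ F, (Y.card : ℝ)) := by
    apply mul_lt_mul_of_pos_left _ (Real.exp_pos _)
    nlinarith
  have hMe : M = Real.exp μ := by rw [hμ, Real.exp_log hMpos]
  have hx : (A.card : ℝ) * Real.log 2 ≤ 2 * μ := by
    have h := Real.log_le_log (by positivity) hM
    rw [Real.log_pow, Real.log_pow] at h
    rw [hμ]
    exact_mod_cast h
  have h98 : (1 / 8 + 1 : ℝ) ^ A.card ≤ Real.exp ((A.card : ℝ) * (1 / 8)) := by
    rw [Real.exp_nat_mul]
    exact pow_le_pow_left₀ (by norm_num) (Real.add_one_le_exp _) _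
  have hfin : Real.exp (-(lam * (μ / 4)) + μ) < Real.exp ((A.card : ℝ) * (1 / 8)) := by
    rw [Real.exp_add, ← hMe]
    linarith
  have hlt := Real.exp_lt_exp.mp hfin
  rw [hlam] at hlt
  have hA0 : (0 : ℝ) ≤ A.card := Nat.cast_nonneg _
  nlinarith

lemma fibre_num (T M s : ℝ) (hT : 2 ≤ T) (hM : 1 ≤ M) (hs : Real.log M / 4 * M ≤ s) :
    Real.log T / 16 * (1 + M) ≤ T + s := by
  have hTpos : 0 < T := by linarith
  have hlT : 0 ≤ Real.log T := Real.log_nonneg (by linarith)
  have hlM : 0 ≤ Real.log M := Real.log_nonneg hM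
  have hs0 : 0 ≤ s := le_trans (by positivity) hs
  by_cases h : M ^ 2 ≤ T
  · have hMs : M ≤ √T := Real.le_sqrt_of_sq_le h
    have hsq : √T * √T = T := Real.mul_self_sqrt hTpos.le
    have hs1 : 1 ≤ √T := le_trans hM hMs
    have hlog : Real.log T ≤ 2 * √T := by
      have h1 : Real.log T = 2 * Real.log (√T) := by
        rw [Real.log_sqrt hTpos.le]; ring
      have h2 := Real.log_le_sub_one_of_pos (show 0 < √T by positivity)
      linarith
    nlinarith
  · push Not at h
    have h1 : Real.log T ≤ 2 * Real.log M := by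
      have := Real.log_le_log hTpos h.le
      rwa [Real.log_pow, Nat.cast_ofNat] at this
    nlinarith

lemma core_fibre (r : V → V → Prop) (hs : ∀ a b, r a b → r b a)
    (hi : ∀ a, ¬ r a a) (v : V) (nb P Q : Finset V) (hnb : ∀ x, x ∈ nb ↔ r v x)
    (hPQ : nb ⊆ P ∪ Q) (hP : Indep r P) (hQ : Indep r Q) (T : ℝ) (hT : 2 ≤ T)
    (Ind : Finset (Finset V)) (hInd : ∀ W, W ∈ Ind ↔ Indep r W) :
    0 ≤ ∑ W ∈ Ind, ((if v ∈ W then T else 0) + ((nb ∩ W).card : ℝ) - Real.log T / 16) := by
  classical
  set L := Real.log T / 16 with hL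
  have hvnb : v ∉ nb := by rw [hnb]; exact hi v
  rw [← Finset.sum_fiberwise_of_maps_to (g := fun W => W \ (insert v nb))
    (t := Ind.image fun W => W \ (insert v nb))
    (fun W hW => Finset.mem_image_of_mem _ hW)]
  apply Finset.sum_nonneg
  intro S hS
  rw [Finset.mem_image] at hS
  obtain ⟨W₀, hW₀, hS⟩ := hS
  rw [hInd] at hW₀
  have hSsub : S ⊆ W₀ := by rw [← hS]; exact Finset.sdiff_subset
  have hSind : Indep r S := fun a ha b hb => hW₀ a (hSsub ha) b (hSsub hb)
  have hSdis : ∀ x ∈ S, x ≠ v ∧ x ∉ nb := by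
    intro x hx
    rw [← hS, Finset.mem_sdiff, Finset.mem_insert] at hx
    push Not at hx
    exact hx.2
  set A := nb.filter (fun x => ∀ s ∈ S, ¬ r x s) with hA
  set F := A.powerset.filter (fun Y => Indep r Y) with hFdef
  have hvS : v ∉ S := fun h => (hSdis v h).1 rfl
  have hYv : ∀ Y ∈ F, v ∉ S ∪ Y := by
    intro Y hY h
    rw [hFdef, Finset.mem_filter, Finset.mem_powerset] at hY
    rcases Finset.mem_union.mp h with h | h
    · exact hvS h
    · have := hY.1 h
      rw [hA, Finset.mem_filter] at this
      exact hvnb this.1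
  have hfib : Ind.filter (fun W => W \ (insert v nb) = S)
      = insert (insert v S) (F.image (fun Y => S ∪ Y)) := by
    ext W
    rw [Finset.mem_filter, hInd, Finset.mem_insert, Finset.mem_image]
    constructor
    · rintro ⟨hW, hWS⟩
      by_cases hv : v ∈ W
      · left
        ext x
        rw [Finset.mem_insert]
        constructor
        · intro hx
          by_cases hxv : x = v
          · exact Or.inl hxv
          · right
            rw [← hWS, Finset.mem_sdiff, Finset.mem_insert]
            refine ⟨hx, ?_⟩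
            rintro (h | h)
            · exact hxv h
            · exact hW v hv x hx ((hnb x).mp h)
        · rintro (h | h)
          · rw [h]; exact hv
          · rw [← hWS] at h
            exact (Finset.mem_sdiff.mp h).1
      · right
        refine ⟨W ∩ nb, ?_, ?_⟩
        · rw [hFdef, Finset.mem_filter, Finset.mem_powerset]
          constructor
          · intro x hx
            rw [Finset.mem_inter] at hx
            rw [hA, Finset.mem_filter]
            refine ⟨hx.2, fun s hs' => ?_⟩
            rw [← hWS] at hs'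
            exact hW x hx.1 s (Finset.mem_sdiff.mp hs').1
          · intro a ha b hb
            exact hW a (Finset.mem_inter.mp ha).1 b (Finset.mem_inter.mp hb).1
        · ext x
          rw [Finset.mem_union, Finset.mem_inter, ← hWS, Finset.mem_sdiff, Finset.mem_insert]
          constructor
          · rintro (h | h)
            · exact h.1
            · exact h.1
          · intro hx
            by_cases hxn : x ∈ nb
            · exact Or.inr ⟨hx, hxn⟩
            · left
              refine ⟨hx, ?_⟩
              rintro (h | h)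
              · rw [h] at hx; exact hv hx
              · exact hxn h
    · rintro (hW | ⟨Y, hY, hW⟩)
      · rw [hW]
        constructor
        · intro a ha b hb
          rw [Finset.mem_insert] at ha hb
          rcases ha with rfl | ha <;> rcases hb with rfl | hb
          · exact hi _
          · intro h; exact (hSdis b hb).2 ((hnb b).mpr h)
          · intro h; exact (hSdis a ha).2 ((hnb a).mpr (hs _ _ h))
          · exact hSind a ha b hb
        · ext x
          rw [Finset.mem_sdiff, Finset.mem_insert, Finset.mem_insert]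
          constructor
          · rintro ⟨h | h, h2⟩
            · exact absurd (Or.inl h) h2
            · exact h
          · intro h
            refine ⟨Or.inr h, ?_⟩
            rintro (h2 | h2)
            · exact (hSdis x h).1 h2
            · exact (hSdis x h).2 h2
      · rw [hFdef, Finset.mem_filter, Finset.mem_powerset] at hY
        have hYA : ∀ y ∈ Y, y ∈ nb ∧ ∀ s ∈ S, ¬ r y s := by
          intro y hy
          have := hY.1 hy
          rw [hA, Finset.mem_filter] at this
          exact this
        rw [← hW]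
        constructor
        · intro a ha b hb
          rw [Finset.mem_union] at ha hb
          rcases ha with ha | ha <;> rcases hb with hb | hb
          · exact hSind a ha b hb
          · intro h; exact (hYA b hb).2 a ha (hs _ _ h)
          · exact (hYA a ha).2 b hb
          · exact hY.2 a ha b hb
        · ext x
          rw [Finset.mem_sdiff, Finset.mem_union, Finset.mem_insert]
          constructor
          · rintro ⟨h | h, h2⟩
            · exact h
            · exact absurd (Or.inr (hYA x h).1) h2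
          · intro h
            refine ⟨Or.inl h, ?_⟩
            rintro (h2 | h2)
            · exact (hSdis x h).1 h2
            · exact (hSdis x h).2 h2
  rw [hfib, Finset.sum_insert, Finset.sum_image]
  · -- the main estimate
    have h1 : T - L ≤ (if v ∈ insert v S then T else 0) + ((nb ∩ insert v S).card : ℝ) - L := by
      rw [if_pos (Finset.mem_insert_self _ _)]
      have : (0 : ℝ) ≤ ((nb ∩ insert v S).card : ℝ) := Nat.cast_nonneg _
      linarith
    have h2 : ∀ Y ∈ F, (Y.card : ℝ) - L
        ≤ (if v ∈ S ∪ Y then T else 0) + ((nb ∩ (S ∪ Y)).card : ℝ) - L := by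
      intro Y hY
      rw [if_neg (hYv Y hY)]
      have : Y ⊆ nb ∩ (S ∪ Y) := by
        intro y hy
        rw [hFdef, Finset.mem_filter, Finset.mem_powerset] at hY
        have := hY.1 hy
        rw [hA, Finset.mem_filter] at this
        exact Finset.mem_inter.mpr ⟨this.1, Finset.mem_union_right _ hy⟩
      have : (Y.card : ℝ) ≤ ((nb ∩ (S ∪ Y)).card : ℝ) := by
        exact_mod_cast Finset.card_le_card this
      linarith
    have h3 := Finset.sum_le_sum h2
    rw [Finset.sum_sub_distrib, Finset.sum_const, nsmul_eq_mul] at h3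
    -- size of `F`
    have hFne : 1 ≤ F.card := by
      rw [Nat.one_le_iff_ne_zero, Ne, Finset.card_eq_zero, ← Ne, ← Finset.nonempty_iff_ne_empty]
      refine ⟨∅, ?_⟩
      rw [hFdef, Finset.mem_filter]
      exact ⟨Finset.empty_mem_powerset _, fun a ha => by simp at ha⟩
    have hsubF : ∀ B : Finset V, Indep r B → 2 ^ (A ∩ B).card ≤ F.card := by
      intro B hB
      rw [← Finset.card_powerset]
      apply Finset.card_le_card
      intro Y hY
      rw [Finset.mem_powerset] at hY
      rw [hFdef, Finset.mem_filter, Finset.mem_powerset]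
      refine ⟨hY.trans Finset.inter_subset_left, fun a ha b hb => ?_⟩
      exact hB a (Finset.mem_inter.mp (hY ha)).2 b (Finset.mem_inter.mp (hY hb)).2
    have hAcard : A.card ≤ (A ∩ P).card + (A ∩ Q).card := by
      refine le_trans (Finset.card_le_card ?_) (Finset.card_union_le _ _)
      intro x hx
      have hxn : x ∈ nb := by rw [hA, Finset.mem_filter] at hx; exact hx.1
      rcases Finset.mem_union.mp (hPQ hxn) with h | h
      · exact Finset.mem_union_left _ (Finset.mem_inter.mpr ⟨hx, h⟩)
      · exact Finset.mem_union_right _ (Finset.mem_inter.mpr ⟨hx, h⟩)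
    have hM : (2 : ℝ) ^ A.card ≤ (F.card : ℝ) ^ 2 := by
      have h4 : 2 ^ A.card ≤ F.card ^ 2 := by
        calc 2 ^ A.card ≤ 2 ^ ((A ∩ P).card + (A ∩ Q).card) :=
              Nat.pow_le_pow_right (by norm_num) hAcard
          _ = 2 ^ (A ∩ P).card * 2 ^ (A ∩ Q).card := pow_add _ _ _
          _ ≤ F.card * F.card := Nat.mul_le_mul (hsubF P hP) (hsubF Q hQ)
          _ = F.card ^ 2 := by ring
      exact_mod_cast h4
    have h5 := avg_lower A F (Finset.filter_subset _ _) hM hFne
    have h6 := fibre_num T (F.card : ℝ) _ hT (by exact_mod_cast hFne) h5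
    rw [← hL] at h6
    linarith
  · intro Y hY Z hZ hYZ
    have key : ∀ Y ∈ F, ∀ y, y ∈ Y ↔ y ∈ S ∪ Y ∧ y ∈ nb := by
      intro Y hY y
      rw [hFdef, Finset.mem_filter, Finset.mem_powerset] at hY
      constructor
      · intro hy
        have := hY.1 hy
        rw [hA, Finset.mem_filter] at this
        exact ⟨Finset.mem_union_right _ hy, this.1⟩
      · rintro ⟨h, h2⟩
        rcases Finset.mem_union.mp h with h | h
        · exact absurd h2 (hSdis y h).2
        · exact h
    ext y
    rw [key Y hY, key Z hZ]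
    simp only at hYZ
    rw [hYZ]
  · intro h
    rw [Finset.mem_image] at h
    obtain ⟨Y, hY, hYe⟩ := h
    exact hYv Y hY (by rw [hYe]; exact Finset.mem_insert_self _ _)

/-- **Core estimate.** -/
theorem core (r : V → V → Prop) (hs : ∀ a b, r a b → r b a)
    (hi : ∀ a, ¬ r a a) (nb : V → Finset V) (hnb : ∀ v x, x ∈ nb v ↔ r v x)
    (hloc : ∀ v, ∃ P Q : Finset V, nb v ⊆ P ∪ Q ∧ Indep r P ∧ Indep r Q)
    (T : ℝ) (hT : 2 ≤ T) (hdeg : ∀ v, ((nb v).card : ℝ) ≤ T)
    (α : ℝ) (hα : ∀ S : Finset V, Indep r S → (S.card : ℝ) ≤ α) :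
    (Fintype.card V : ℝ) * (Real.log T / 16) ≤ 2 * T * α := by
  classical
  set Ind : Finset (Finset V) := univ.filter (fun W => Indep r W) with hIndd
  have hInd : ∀ W, W ∈ Ind ↔ Indep r W := by intro W; simp [hIndd]
  have h1 : 0 ≤ ∑ v : V, ∑ W ∈ Ind,
      ((if v ∈ W then T else 0) + ((nb v ∩ W).card : ℝ) - Real.log T / 16) := by
    apply Finset.sum_nonneg
    intro v _
    obtain ⟨P, Q, hPQ, hP, hQ⟩ := hloc v
    exact core_fibre r hs hi v (nb v) P Q (hnb v) hPQ hP hQ T hT Ind hInd
  rw [Finset.sum_comm] at h1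
  have h2 : ∀ W ∈ Ind, ∑ v : V,
      ((if v ∈ W then T else 0) + ((nb v ∩ W).card : ℝ) - Real.log T / 16)
      ≤ 2 * T * α - (Fintype.card V : ℝ) * (Real.log T / 16) := by
    intro W hW
    rw [Finset.sum_sub_distrib, Finset.sum_add_distrib, Finset.sum_const, nsmul_eq_mul,
      Finset.card_univ]
    have h3 : ∑ v : V, (if v ∈ W then T else 0) = W.card * T := by
      rw [Finset.sum_ite_mem, Finset.univ_inter, Finset.sum_const, nsmul_eq_mul]
    have h4 : ∑ v : V, ((nb v ∩ W).card : ℝ) = ∑ w ∈ W, ((nb w).card : ℝ) := by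
      have h5 : ∀ v : V, ((nb v ∩ W).card : ℝ) = ∑ w ∈ W, (if w ∈ nb v then (1 : ℝ) else 0) := by
        intro v
        rw [Finset.sum_ite_mem, Finset.sum_const, nsmul_eq_mul, mul_one, Finset.inter_comm]
      rw [Finset.sum_congr rfl (fun v _ => h5 v), Finset.sum_comm]
      apply Finset.sum_congr rfl
      intro w _
      have h6 : ∀ v : V, (if w ∈ nb v then (1 : ℝ) else 0) = (if v ∈ nb w then (1 : ℝ) else 0) := by
        intro v
        have : w ∈ nb v ↔ v ∈ nb w := by
          rw [hnb, hnb]; exact ⟨hs _ _, hs _ _⟩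
        simp only [this]
      rw [Finset.sum_congr rfl (fun v _ => h6 v), Finset.sum_ite_mem, Finset.univ_inter,
        Finset.sum_const, nsmul_eq_mul, mul_one]
    have h7 : ∑ w ∈ W, ((nb w).card : ℝ) ≤ W.card * T := by
      rw [← nsmul_eq_mul]
      exact Finset.sum_le_card_nsmul _ _ _ (fun w _ => hdeg w)
    have h8 : (W.card : ℝ) ≤ α := hα W ((hInd W).mp hW)
    rw [h3, h4]
    have h9 : (W.card : ℝ) * T ≤ α * T := mul_le_mul_of_nonneg_right h8 (by linarith)
    linarith
  have h10 := Finset.sum_le_sum h2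
  rw [Finset.sum_const, nsmul_eq_mul] at h10
  have hne : (0 : ℝ) < Ind.card := by
    have : ∅ ∈ Ind := (hInd ∅).mpr (fun a ha => by simp at ha)
    exact_mod_cast Finset.card_pos.mpr ⟨∅, this⟩
  by_contra hcon
  push Not at hcon
  have : (Ind.card : ℝ) * (2 * T * α - (Fintype.card V : ℝ) * (Real.log T / 16)) < 0 :=
    mul_neg_of_pos_of_neg hne (by linarith)
  linarith

end Pool.Agent.H520TT
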