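import Mathlib
import Pool.Agent.H520TT.Core

set_option autoImplicit false

namespace Pool.Agent.H520TT

open Finset

/-- `Good n m B`: every finite loopless digraph all of whose independent sets have fewer than `n`
elements and which contains no transitive tournament of size `m` has at most `B` vertices. -/
def Good (n m : ℕ) (B : ℝ) : Prop :=
  ∀ (V : Type) [Fintype V] (D : V → V → Prop), (∀ a, ¬ D a a) →
    (∀ S : Finset V, Indep D S → S.card < n) →
    (¬ ∃ f : Fin m → V, ∀ i j, i < j → D (f i) (f j)) → (Fintype.card V : ℝ) ≤ B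

lemma good_finset {n m : ℕ} {B : ℝ} (h : Good n m B) {V : Type} [Fintype V]
    (D : V → V → Prop) (hirr : ∀ a, ¬ D a a) (hind : ∀ S : Finset V, Indep D S → S.card < n)
    (U : Finset V)
    (hTT : ¬ ∃ f : Fin m → V, (∀ i, f i ∈ U) ∧ ∀ i j, i < j → D (f i) (f j)) :
    (U.card : ℝ) ≤ B := by
  classical
  have := h {x // x ∈ U} (fun a b => D a.1 b.1) (fun a => hirr a.1) ?_ ?_
  · rwa [Fintype.card_coe] at this
  · intro S hS
    have h2 := hind (S.map (Function.Embedding.subtype _)) ?_
    · rwa [Finset.card_map] at h2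
    · intro a ha b hb
      rw [Finset.mem_map] at ha hb
      obtain ⟨a', ha', rfl⟩ := ha
      obtain ⟨b', hb', rfl⟩ := hb
      exact hS a' ha' b' hb'
  · rintro ⟨f, hf⟩
    exact hTT ⟨fun i => (f i).1, fun i => (f i).2, hf⟩

lemma good_two (n : ℕ) : Good n 2 n := by
  intro V _ D hirr hind hTT
  have h := hind univ ?_
  · rw [Finset.card_univ] at h
    exact_mod_cast h.le
  · intro a _ b _ hab
    apply hTT
    refine ⟨![a, b], ?_⟩
    intro i j hij
    fin_cases i <;> fin_cases j <;> simp_all

/-- a digraph without transitive triangles and with all total degrees at most `T` -/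
lemma tt3 {n : ℕ} {V : Type} [Fintype V] [DecidableEq V] (D : V → V → Prop)
    (hirr : ∀ a, ¬ D a a) (hind : ∀ S : Finset V, Indep D S → S.card < n)
    (hTT : ∀ a b c, D a b → D b c → ¬ D a c)
    (nb : V → Finset V) (hnb : ∀ v x, x ∈ nb v ↔ (D v x ∨ D x v))
    (T : ℝ) (hT : 2 ≤ T) (hdeg : ∀ v, ((nb v).card : ℝ) ≤ T) :
    (Fintype.card V : ℝ) * (Real.log T / 16) ≤ 2 * T * n := by
  classical
  refine core (fun a b => D a b ∨ D b a) (fun a b h => h.symm) (fun a h => ?_) nb hnb ?_ T hT
    hdeg n ?_
  · rcases h with h | h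
    · exact hirr a h
    · exact hirr a h
  · intro v
    refine ⟨univ.filter (fun x => D v x), univ.filter (fun x => D x v), ?_, ?_, ?_⟩
    · intro x hx
      rw [hnb] at hx
      rw [Finset.mem_union, Finset.mem_filter, Finset.mem_filter]
      rcases hx with h | h
      · exact Or.inl ⟨mem_univ _, h⟩
      · exact Or.inr ⟨mem_univ _, h⟩
    · intro a ha b hb h
      rw [Finset.mem_filter] at ha hb
      rcases h with h | h
      · exact hTT v a b ha.2 h hb.2
      · exact hTT v b a hb.2 h ha.2
    · intro a ha b hb h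
      rw [Finset.mem_filter] at ha hb
      rcases h with h | h
      · exact hTT a b v h hb.2 ha.2
      · exact hTT b a v h ha.2 hb.2
  · intro S hS
    have := hind S (fun a ha b hb h => hS a ha b hb (Or.inl h))
    exact_mod_cast this.le

lemma three_of {V : Type} (D : V → V → Prop)
    (hTT : ¬ ∃ f : Fin 3 → V, ∀ i j, i < j → D (f i) (f j)) :
    ∀ a b c, D a b → D b c → ¬ D a c := by
  intro a b c hab hbc hac
  apply hTT
  refine ⟨![a, b, c], ?_⟩
  intro i j hij
  fin_cases i <;> fin_cases j <;> simp_all

lemma good_three {n : ℕ} (hn : 1 ≤ n) (B : ℝ)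
    (hB : 64 * (n : ℝ) ^ 2 / Real.log (2 * n) ≤ B) : Good n 3 B := by
  intro V _ D hirr hind hTT
  classical
  refine le_trans ?_ hB
  have hn1 : (1 : ℝ) ≤ n := by exact_mod_cast hn
  have hlog : 0 < Real.log (2 * n) := Real.log_pos (by linarith)
  have h3 := three_of D hTT
  have := tt3 (n := n) D hirr hind h3 (fun v => univ.filter (fun x => D v x ∨ D x v))
    (fun v x => by simp) (2 * n) (by linarith) ?_
  · rw [le_div_iff₀ hlog]
    nlinarith
  · intro v
    have h1 : (univ.filter (fun x => D v x)).card < n := by
      apply hind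
      intro a ha b hb h
      rw [Finset.mem_filter] at ha hb
      exact h3 v a b ha.2 h hb.2
    have h2 : (univ.filter (fun x => D x v)).card < n := by
      apply hind
      intro a ha b hb h
      rw [Finset.mem_filter] at ha hb
      exact h3 a b v h hb.2 ha.2
    have h4 : (univ.filter (fun x => D v x ∨ D x v)).card
        ≤ (univ.filter (fun x => D v x)).card + (univ.filter (fun x => D x v)).card := by
      rw [Finset.filter_or]
      exact Finset.card_union_le _ _
    have h5 : (univ.filter (fun x => D v x ∨ D x v)).card ≤ 2 * n := by omega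
    exact_mod_cast h5

/-- counting colourings that vanish on a given set -/
lemma card_zero {V : Type} [Fintype V] [DecidableEq V] (X : Finset V) (q : ℕ) :
    ((univ : Finset (V → Fin (q + 1))).filter (fun c => ∀ x ∈ X, c x = 0)).card
      * (q + 1) ^ X.card = (q + 1) ^ Fintype.card V := by
  have h1 : ((univ : Finset (V → Fin (q + 1))).filter (fun c => ∀ x ∈ X, c x = 0))
      = Fintype.piFinset (fun x => if x ∈ X then ({0} : Finset (Fin (q + 1))) else univ) := by
    ext c
    rw [Finset.mem_filter, Fintype.mem_piFinset]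
    constructor
    · rintro ⟨_, h⟩ x
      by_cases hx : x ∈ X
      · simp [hx, h x hx]
      · simp [hx]
    · intro h
      refine ⟨mem_univ _, fun x hx => ?_⟩
      have := h x
      simpa [hx] using this
  rw [h1, Fintype.card_piFinset]
  have h2 : (q + 1) ^ X.card = ∏ x : V, (if x ∈ X then (q + 1) else 1) := by
    rw [Finset.prod_ite_mem, Finset.univ_inter, Finset.prod_const]
  rw [h2, ← Finset.prod_mul_distrib, ← Finset.card_univ, ← Finset.prod_const]
  apply Finset.prod_congr rfl
  intro x _
  by_cases hx : x ∈ X <;> simp [hx]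

end Pool.Agent.H520TT
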