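import Mathlib
import Pool.Agent.H520TT.Step

set_option autoImplicit false

namespace Pool.Agent.H520TT

open Finset

lemma sum_count {V : Type} [Fintype V] [DecidableEq V] (q : ℕ) {ι : Type} (P : Finset ι)
    (X : ι → Finset V) (k : ℕ) (hk : ∀ p ∈ P, (X p).card = k) :
    (∑ c : V → Fin (q + 1), ((P.filter (fun p => ∀ x ∈ X p, c x = 0)).card : ℝ))
      * ((q : ℝ) + 1) ^ k = P.card * ((q : ℝ) + 1) ^ Fintype.card V := by
  have h1 : (∑ c : V → Fin (q + 1), (P.filter (fun p => ∀ x ∈ X p, c x = 0)).card)
      * (q + 1) ^ k = P.card * (q + 1) ^ Fintype.card V := by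
    have h2 : ∑ c : V → Fin (q + 1), (P.filter (fun p => ∀ x ∈ X p, c x = 0)).card
        = ∑ p ∈ P, ((univ : Finset (V → Fin (q + 1))).filter
          (fun c => ∀ x ∈ X p, c x = 0)).card := by
      simp only [Finset.card_filter]
      rw [Finset.sum_comm]
    rw [h2, Finset.sum_mul, ← smul_eq_mul P.card, ← Finset.sum_const]
    apply Finset.sum_congr rfl
    intro p hp
    rw [← hk p hp]
    exact card_zero (X p) q
  exact_mod_cast h1

lemma cons_tt {V : Type} {m : ℕ} (D : V → V → Prop) (v : V) (f : Fin m → V)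
    (hv : ∀ i, D v (f i)) (hf : ∀ i j, i < j → D (f i) (f j)) :
    ∀ i j : Fin (m + 1), i < j → D ((Fin.cons v f : Fin (m + 1) → V) i)
      ((Fin.cons v f : Fin (m + 1) → V) j) := by
  intro i j hij
  induction i using Fin.cases with
  | zero =>
    induction j using Fin.cases with
    | zero => exact absurd hij (lt_irrefl _)
    | succ j => simpa using hv j
  | succ i =>
    induction j using Fin.cases with
    | zero => exact absurd hij (by simp)
    | succ j => simpa using hf i j (by simpa using hij)

/-- **Sampling step.** -/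
theorem step {n m q : ℕ} {K J : ℝ} (hK : Good n (m + 3) K) (hJ : Good n (m + 2) J)
    (hJ0 : 0 ≤ J) (hK0 : 0 < K) (hq1 : 8 * K * J ≤ ((q : ℝ) + 1) ^ 2)
    (hq2 : (q : ℝ) + 1 ≤ 8 * K)
    (B : ℝ) (hB : 2048 / 3 * K * n / Real.log (16 * K / ((q : ℝ) + 1)) ≤ B) :
    Good n (m + 4) B := by
  intro V _ D hirr hind hTT
  classical
  refine le_trans ?_ hB
  set N : ℝ := (Fintype.card V : ℝ) with hN
  have hN0 : 0 ≤ N := Nat.cast_nonneg _
  set Q : ℝ := (q : ℝ) + 1 with hQ
  have hQpos : 0 < Q := by rw [hQ]; positivity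
  set T : ℝ := 16 * K / Q with hTdef
  have hT2 : 2 ≤ T := by
    rw [hTdef, le_div_iff₀ hQpos]; linarith
  have hTpos : 0 < T := by linarith
  have hlogT : 0 < Real.log T := Real.log_pos (by linarith)
  have hTQ : T * Q = 16 * K := by rw [hTdef]; field_simp
  -- out-neighbourhoods
  have hout : ∀ v, ((univ.filter (fun x => D v x)).card : ℝ) ≤ K := by
    intro v
    apply good_finset hK D hirr hind
    rintro ⟨f, hfU, hf⟩
    exact hTT ⟨Fin.cons v f, cons_tt D v f (fun i => by simpa using hfU i) hf⟩
  have hcom : ∀ a b, D a b → ((univ.filter (fun x => D a x ∧ D b x)).card : ℝ) ≤ J := by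
    intro a b hab
    apply good_finset hJ D hirr hind
    rintro ⟨f, hfU, hf⟩
    have h1 : ∀ i, D a (f i) ∧ D b (f i) := fun i => by simpa using hfU i
    refine hTT ⟨Fin.cons a (Fin.cons b f), cons_tt D a _ ?_ (cons_tt D b f (fun i => (h1 i).2) hf)⟩
    intro i
    induction i using Fin.cases with
    | zero => simpa using hab
    | succ i => simpa using (h1 i).1
  set Arcs : Finset (V × V) := univ.filter (fun p => D p.1 p.2) with hArcs
  set Trip : Finset (V × V × V) :=
    univ.filter (fun t => D t.1 t.2.1 ∧ D t.2.1 t.2.2 ∧ D t.1 t.2.2) with hTrip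
  have hArcsCard : (Arcs.card : ℝ) ≤ N * K := by
    have h1 : Arcs.card = ∑ v : V, (Arcs.filter (fun p => p.1 = v)).card :=
      Finset.card_eq_sum_card_fiberwise (fun p _ => mem_univ p.1)
    rw [h1]
    push_cast
    have h2 : ∀ v ∈ (univ : Finset V), ((Arcs.filter (fun p => p.1 = v)).card : ℝ) ≤ K := by
      intro v _
      refine le_trans ?_ (hout v)
      have : (Arcs.filter (fun p => p.1 = v)).card ≤ (univ.filter (fun x => D v x)).card := by
        apply Finset.card_le_card_of_injOn (fun p => p.2)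
        · intro p hp
          simp only [hArcs, Finset.coe_filter, Finset.mem_filter, mem_univ, true_and,
            Set.mem_ofPred_eq] at hp ⊢
          rw [← hp.2]; exact hp.1
        · intro p hp p' hp' h
          simp only [Finset.coe_filter, Set.mem_ofPred_eq] at hp hp'
          exact Prod.ext (hp.2.trans hp'.2.symm) h
      exact_mod_cast this
    have h3 := Finset.sum_le_card_nsmul _ _ _ h2
    rw [Finset.card_univ, nsmul_eq_mul] at h3
    exact h3
  have hTripCard : (Trip.card : ℝ) ≤ Arcs.card * J := by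
    have h1 : Trip.card = ∑ p ∈ Arcs, (Trip.filter (fun t => (t.1, t.2.1) = p)).card := by
      apply Finset.card_eq_sum_card_fiberwise
      intro t ht
      simp only [hTrip, hArcs, Finset.coe_filter, mem_univ, true_and, Set.mem_ofPred_eq] at ht ⊢
      exact ht.1
    rw [h1]
    push_cast
    have h2 : ∀ p ∈ Arcs, ((Trip.filter (fun t => (t.1, t.2.1) = p)).card : ℝ) ≤ J := by
      intro p hp
      have hp' : D p.1 p.2 := by simpa [hArcs] using hp
      refine le_trans ?_ (hcom p.1 p.2 hp')
      have : (Trip.filter (fun t => (t.1, t.2.1) = p)).card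
          ≤ (univ.filter (fun x => D p.1 x ∧ D p.2 x)).card := by
        apply Finset.card_le_card_of_injOn (fun t => t.2.2)
        · intro t ht
          simp only [hTrip, Finset.coe_filter, Finset.mem_filter, mem_univ, true_and,
            Set.mem_ofPred_eq] at ht ⊢
          rw [← ht.2]; exact ⟨ht.1.2.2, ht.1.2.1⟩
        · intro t ht t' ht' h
          simp only [Finset.coe_filter, Set.mem_ofPred_eq] at ht ht'
          have h5 := ht.2.trans ht'.2.symm
          rw [Prod.mk.injEq] at h5
          exact Prod.ext h5.1 (Prod.ext h5.2 h)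
      exact_mod_cast this
    have h3 := Finset.sum_le_card_nsmul _ _ _ h2
    rw [nsmul_eq_mul] at h3
    exact h3
  -- the random colouring
  set W : ℝ := Q ^ Fintype.card V with hW
  have hWpos : 0 < W := by positivity
  have s1 := sum_count (V := V) q (univ : Finset V) (fun v => {v}) 1 (fun v _ => by simp)
  have s2 := sum_count (V := V) q Arcs (fun p => {p.1, p.2}) 2 (fun p hp => by
    have hp' : D p.1 p.2 := by simpa [hArcs] using hp
    rw [Finset.card_pair]
    intro h
    rw [← h] at hp'
    exact hirr _ hp')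
  have s3 := sum_count (V := V) q Trip (fun t => {t.1, t.2.1, t.2.2}) 3 (fun t ht => by
    have ht' : D t.1 t.2.1 ∧ D t.2.1 t.2.2 ∧ D t.1 t.2.2 := by simpa [hTrip] using ht
    rw [Finset.card_eq_three]
    refine ⟨t.1, t.2.1, t.2.2, ?_, ?_, ?_, rfl⟩
    · intro h; rw [← h] at ht'; exact hirr _ ht'.1
    · intro h; rw [← h] at ht'; exact hirr _ ht'.2.2
    · intro h; rw [← h] at ht'; exact hirr _ ht'.2.1)
  rw [← hQ, ← hW] at s1 s2 s3
  set β : ℝ := Q / (8 * K) with hβ
  have hβ0 : 0 < β := by rw [hβ]; positivity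
  -- the good colouring
  obtain ⟨c, _, hc⟩ : ∃ c ∈ (univ : Finset (V → Fin (q + 1))), 3 * N / (4 * Q) ≤
      (((univ : Finset V).filter (fun v => ∀ x ∈ ({v} : Finset V), c x = 0)).card : ℝ)
      - ((Trip.filter (fun t => ∀ x ∈ ({t.1, t.2.1, t.2.2} : Finset V), c x = 0)).card : ℝ)
      - β * ((Arcs.filter (fun p => ∀ x ∈ ({p.1, p.2} : Finset V), c x = 0)).card : ℝ) := by
    apply Finset.exists_le_of_sum_le (Finset.univ_nonempty)
    rw [Finset.sum_sub_distrib, Finset.sum_sub_distrib, ← Finset.mul_sum, Finset.sum_const,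
      nsmul_eq_mul, Finset.card_univ, Fintype.card_fun, Fintype.card_fin]
    push_cast
    rw [← hQ, ← hW]
    set S1 := ∑ c : V → Fin (q + 1),
      (((univ : Finset V).filter (fun v => ∀ x ∈ ({v} : Finset V), c x = 0)).card : ℝ)
    set S2 := ∑ c : V → Fin (q + 1),
      ((Arcs.filter (fun p => ∀ x ∈ ({p.1, p.2} : Finset V), c x = 0)).card : ℝ)
    set S3 := ∑ c : V → Fin (q + 1),
      ((Trip.filter (fun t => ∀ x ∈ ({t.1, t.2.1, t.2.2} : Finset V), c x = 0)).card : ℝ)
    rw [Finset.card_univ, pow_one, ← hN] at s1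
    have e1 : S1 = N * W / Q := by field_simp; linarith
    have e2 : S2 = Arcs.card * W / Q ^ 2 := by field_simp; linarith
    have e3 : S3 = Trip.card * W / Q ^ 3 := by field_simp; linarith
    have f2 : β * S2 ≤ N * W / (8 * Q) := by
      rw [e2, hβ]
      rw [show Q / (8 * K) * ((Arcs.card : ℝ) * W / Q ^ 2) = (Arcs.card : ℝ) * (W / (8 * K * Q)) by
        field_simp]
      rw [show N * W / (8 * Q) = (N * K) * (W / (8 * K * Q)) by field_simp]
      exact mul_le_mul_of_nonneg_right hArcsCard (by positivity)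
    have f3 : S3 ≤ N * W / (8 * Q) := by
      rw [e3]
      have g1 : (Trip.card : ℝ) ≤ N * K * J :=
        hTripCard.trans (mul_le_mul_of_nonneg_right hArcsCard hJ0)
      have g2 : (Trip.card : ℝ) * 8 ≤ N * Q ^ 2 := by nlinarith
      rw [div_le_div_iff₀ (by positivity) (by positivity)]
      have g3 : (Trip.card : ℝ) * W * (8 * Q) = ((Trip.card : ℝ) * 8) * (W * Q) := by ring
      have g4 : N * W * Q ^ 3 = (N * Q ^ 2) * (W * Q) := by ring
      rw [g3, g4]
      exact mul_le_mul_of_nonneg_right g2 (by positivity)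
    have e4 : W * (3 * N / (4 * Q)) = N * W / Q - N * W / (8 * Q) - N * W / (8 * Q) := by
      field_simp; ring
    rw [e4, e1]
    linarith
  set U : Finset V := univ.filter (fun v => c v = 0) with hU
  have hUeq : ((univ : Finset V).filter (fun v => ∀ x ∈ ({v} : Finset V), c x = 0)) = U := by
    rw [hU]; congr 1; ext v; simp
  set E := Arcs.filter (fun p => ∀ x ∈ ({p.1, p.2} : Finset V), c x = 0) with hE
  set TU := Trip.filter (fun t => ∀ x ∈ ({t.1, t.2.1, t.2.2} : Finset V), c x = 0) with hTU
  rw [hUeq] at hc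
  have hEmem : ∀ a b, (a, b) ∈ E ↔ D a b ∧ a ∈ U ∧ b ∈ U := by
    intro a b
    rw [hE, hArcs, hU]
    simp
  have hTUmem : ∀ a b d, (a, b, d) ∈ TU ↔ (D a b ∧ D b d ∧ D a d) ∧ a ∈ U ∧ b ∈ U ∧ d ∈ U := by
    intro a b d
    rw [hTU, hTrip, hU]
    simp
  set dg : V → Finset V := fun v => U.filter (fun x => D v x ∨ D x v) with hdg
  set H : Finset V := U.filter (fun v => T < ((dg v).card : ℝ)) with hH
  have hHcard : (H.card : ℝ) ≤ β * E.card := by
    have h1 : (H.card : ℝ) * T ≤ ∑ v ∈ H, ((dg v).card : ℝ) := by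
      rw [← nsmul_eq_mul]
      apply Finset.card_nsmul_le_sum
      intro v hv
      rw [hH, Finset.mem_filter] at hv
      exact hv.2.le
    have h2 : ∀ v ∈ H, ((dg v).card : ℝ)
        ≤ ((E.filter (fun p => p.1 = v)).card : ℝ) + ((E.filter (fun p => p.2 = v)).card : ℝ) := by
      intro v hv
      have hvU : v ∈ U := by rw [hH, Finset.mem_filter] at hv; exact hv.1
      have h3 : (dg v).card ≤ (E.filter (fun p => p.1 = v)).card
          + (E.filter (fun p => p.2 = v)).card := by
        have h4 : dg v ⊆ (E.filter (fun p => p.1 = v)).image Prod.snd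
            ∪ (E.filter (fun p => p.2 = v)).image Prod.fst := by
          intro x hx
          rw [hdg] at hx
          simp only [Finset.mem_filter] at hx
          rw [Finset.mem_union, Finset.mem_image, Finset.mem_image]
          rcases hx.2 with h | h
          · left
            exact ⟨(v, x), Finset.mem_filter.mpr ⟨(hEmem v x).mpr ⟨h, hvU, hx.1⟩, rfl⟩, rfl⟩
          · right
            exact ⟨(x, v), Finset.mem_filter.mpr ⟨(hEmem x v).mpr ⟨h, hx.1, hvU⟩, rfl⟩, rfl⟩
        calc (dg v).card ≤ _ := Finset.card_le_card h4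
          _ ≤ _ := Finset.card_union_le _ _
          _ ≤ _ := Nat.add_le_add Finset.card_image_le Finset.card_image_le
      exact_mod_cast h3
    have h5 : ∑ v ∈ H, (((E.filter (fun p => p.1 = v)).card : ℝ)
        + ((E.filter (fun p => p.2 = v)).card : ℝ)) ≤ 2 * E.card := by
      have h6 : ∑ v ∈ H, (((E.filter (fun p => p.1 = v)).card : ℝ)
        + ((E.filter (fun p => p.2 = v)).card : ℝ))
        ≤ ∑ v : V, (((E.filter (fun p => p.1 = v)).card : ℝ)
        + ((E.filter (fun p => p.2 = v)).card : ℝ)) := by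
        apply Finset.sum_le_sum_of_subset_of_nonneg (Finset.subset_univ _)
        intro v _ _
        positivity
      refine h6.trans ?_
      rw [Finset.sum_add_distrib]
      have h7 : E.card = ∑ v : V, (E.filter (fun p => p.1 = v)).card :=
        Finset.card_eq_sum_card_fiberwise (fun p _ => mem_univ p.1)
      have h8 : E.card = ∑ v : V, (E.filter (fun p => p.2 = v)).card :=
        Finset.card_eq_sum_card_fiberwise (fun p _ => mem_univ p.2)
      have h7' : (E.card : ℝ) = ∑ v : V, ((E.filter (fun p => p.1 = v)).card : ℝ) := by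
        exact_mod_cast h7
      have h8' : (E.card : ℝ) = ∑ v : V, ((E.filter (fun p => p.2 = v)).card : ℝ) := by
        exact_mod_cast h8
      linarith
    have h9 : (H.card : ℝ) * T ≤ 2 * E.card := h1.trans ((Finset.sum_le_sum h2).trans h5)
    have h10 : β * T = 2 := by
      rw [hβ, hTdef]; field_simp; norm_num
    have h11 : (H.card : ℝ) * T ≤ (β * E.card) * T := by
      calc (H.card : ℝ) * T ≤ 2 * E.card := h9
        _ = (β * T) * E.card := by rw [h10]
        _ = (β * E.card) * T := by ring
    exact le_of_mul_le_mul_right h11 hTpos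
  set U' : Finset V := U \ (H ∪ TU.image (fun t => t.1)) with hU'
  have hU'card : 3 * N / (4 * Q) ≤ (U'.card : ℝ) := by
    have h1 : U.card ≤ U'.card + (H.card + TU.card) := by
      have h2 : U.card ≤ U'.card + (H ∪ TU.image (fun t => t.1)).card := by
        rw [hU']
        exact Finset.card_le_card_sdiff_add_card
      have h3 : (H ∪ TU.image (fun t => t.1)).card ≤ H.card + TU.card :=
        (Finset.card_union_le _ _).trans (Nat.add_le_add_left Finset.card_image_le _)
      omega
    have h1' : (U.card : ℝ) ≤ U'.card + (H.card + TU.card) := by exact_mod_cast h1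
    linarith
  -- apply the triangle case to `U'`
  have hfin : (U'.card : ℝ) * (Real.log T / 16) ≤ 2 * T * n := by
    have h := tt3 (n := n) (V := {x // x ∈ U'}) (fun a b => D a.1 b.1) (fun a => hirr a.1) ?_ ?_
      (fun v => univ.filter (fun x => D v.1 x.1 ∨ D x.1 v.1)) (fun v x => by simp) T hT2 ?_
    · rwa [Fintype.card_coe] at h
    · intro S hS
      have h2 := hind (S.map (Function.Embedding.subtype _)) ?_
      · rwa [Finset.card_map] at h2
      · intro a ha b hb
        rw [Finset.mem_map] at ha hb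
        obtain ⟨a', ha', rfl⟩ := ha
        obtain ⟨b', hb', rfl⟩ := hb
        exact hS a' ha' b' hb'
    · intro a b d hab hbd had
      have ha := Finset.mem_sdiff.mp a.2
      apply ha.2
      rw [Finset.mem_union, Finset.mem_image]
      right
      have hb : b.1 ∈ U := (Finset.mem_sdiff.mp b.2).1
      have hd : d.1 ∈ U := (Finset.mem_sdiff.mp d.2).1
      exact ⟨(a.1, b.1, d.1), (hTUmem _ _ _).mpr ⟨⟨hab, hbd, had⟩, ha.1, hb, hd⟩, rfl⟩
    · intro v
      have hv := Finset.mem_sdiff.mp v.2
      have hvH : ¬ T < ((dg v.1).card : ℝ) := by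
        intro h
        exact hv.2 (Finset.mem_union_left _ (Finset.mem_filter.mpr ⟨hv.1, h⟩))
      push Not at hvH
      refine le_trans ?_ hvH
      have : (univ.filter (fun x : {x // x ∈ U'} => D v.1 x.1 ∨ D x.1 v.1)).card
          ≤ (dg v.1).card := by
        apply Finset.card_le_card_of_injOn (fun x => x.1)
        · intro x hx
          simp only [Finset.coe_filter, mem_univ, true_and, Set.mem_ofPred_eq] at hx
          simp only [hdg, Finset.coe_filter, Set.mem_ofPred_eq]
          exact ⟨(Finset.mem_sdiff.mp x.2).1, hx⟩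
        · intro x _ y _ h
          exact Subtype.ext h
      exact_mod_cast this
  rw [le_div_iff₀ hlogT]
  have h1 : N ≤ 4 * Q / 3 * U'.card := by
    rw [div_le_iff₀ (by positivity)] at hU'card
    linarith
  have h2 : (U'.card : ℝ) * Real.log T ≤ 32 * T * n := by linarith
  calc N * Real.log T ≤ (4 * Q / 3 * U'.card) * Real.log T :=
        mul_le_mul_of_nonneg_right h1 hlogT.le
    _ = 4 * Q / 3 * (U'.card * Real.log T) := by ring
    _ ≤ 4 * Q / 3 * (32 * T * n) := mul_le_mul_of_nonneg_left h2 (by positivity)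
    _ = 128 / 3 * (T * Q) * n := by ring
    _ = 2048 / 3 * K * n := by rw [hTQ]; ring

end Pool.Agent.H520TT
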